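import Mathlib

/-!
# Project nm (MP_807847_an): a null trigonometric series and a measure on its null set, pairing not zero

THEOREM (frozen statement S05212). There are `a_n → 0`, a closed set `F ⊆ 𝕋` with `S_N(a) → 0` on `F` and a finite
positive measure `μ` on `F` with `∑ |μ^(n)| |a_(-n)| < ∞` and `∑ μ^(n) a_(-n) ≠ 0`.

Module `nm:XX` proves `theorem XX (h1 : YY_stmt) ... : XX_stmt` (the hypotheses are in its row) in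
`Pool/Agent/<seat>/NM/XX.lean`, `import Pool.Agent.helper84.NM.Spec`, namespace `Pool.Agent.helper84.NM`, auxiliary
lemmas with the prefix `XX_`. No double quotes, no `convert`, no `congr!`, no `native_decide`.

PLAN. `f = ∑ f_j`, `μ = ∑ u_j dx` with nonnegative functions, `f_j u_j = 0`. Stage `j` lives on the set
`{Q_i x near 0 (i < j), Q_j x near π}`, so different stages are separated, and `f_j` is far from the limit set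
`{Q_i x near 0 for all i}`. Inside, `f_j = α_j Fs_j nn (Q x)`, `u_j = β_j Gs_j dd (Q x)` with `Q = Q_(j+1)`: `nn` is the
sum of the bumps `T(y - 2πk/p)` over the nonresidues `k` modulo `p = p_(j+1)`, `dd` a multiple of the sum of the bumps
`V(y - 2πk/p)` over the residues. As `p = 1` modulo `4` the Gauss sums are real: `nn^(t) = -(√p ε(t) + 1)/2 T^(t)`,
`dd^(t) = (√p ε(t) - 1)/(p - 1) V^(t)`, `ε(t) = ± 1`. Next environments: `F_(j+1) = F_j T(Q x)`,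
`Fs_(j+1) = F_j T(Q x + π)`, `G_(j+1) = G_j V(Q x)`, `Gs_(j+1) = G_j V(Q x + π)`. With
`α_(j+1) = α_j √p`, `β_(j+1) = β_j √p/(p - 1)` the products `A_j^(n) conj (B_j^(n))`,
`A_j = ∑_(i<j) f_i + (α_j/2) Fs_j`, `B_j = ∑_(i<j) u_i + β_j Gs_j`, form a Cauchy sequence in `ℓ¹(ℤ)`.
Sequences: `cv g a Q` is the sequence of coefficients of `a(x) g(Q x)`. All sums of absolute values are in `ENNReal`
(`‖·‖ₑ`), where `ENNReal.tsum_comm`, `ENNReal.tsum_add`, `ENNReal.tsum_mul_left`, `ENNReal.tsum_le_tsum` hold without hypotheses.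
-/

set_option autoImplicit false

namespace Pool.Agent.helper84.NM

open MeasureTheory Filter Topology
open scoped ENNReal

/-- the circle of the frozen statement -/
abbrev TT : Type := AddCircle (2 * Real.pi)

noncomputable instance : Fact (0 < 2 * Real.pi) := ⟨Real.two_pi_pos⟩

/-! ### Sequences -/

/-- the `ℓ¹` norm -/
noncomputable def N1 (a : ℤ → ℂ) : ℝ≥0∞ := ∑' n, ‖a n‖ₑ

/-- the square of the `ℓ²` norm -/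
noncomputable def N2 (a : ℤ → ℂ) : ℝ≥0∞ := ∑' n, ‖a n‖ₑ ^ 2

/-- coefficients of `a(x) g(Q x)` -/
noncomputable def cv (g a : ℤ → ℂ) (Q : ℕ) (m : ℤ) : ℂ := ∑' t : ℤ, g t * a (m - t * Q)

/-- coefficients of `g(x + π)` -/
noncomputable def sg (g : ℤ → ℂ) (t : ℤ) : ℂ := (-1) ^ t * g t

/-- cross tails -/
noncomputable def ct (a b : ℤ → ℝ≥0∞) (Q : ℕ) : ℝ≥0∞ :=
  ∑' (t : ℤ) (m : ℤ), if t = 0 then 0 else a m * b (m - t * Q)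

/-- parity defect -/
noncomputable def PD (F Fs G Gs : ℤ → ℂ) : ℝ≥0∞ :=
  (∑' m, ‖F m - Fs m‖ₑ * ‖G m + Gs m‖ₑ) + ∑' m, ‖F m + Fs m‖ₑ * ‖G m - Gs m‖ₑ

/-- the properties of the coefficients of `T`, `V`, `nn`, `dd` -/
structure QS (p : ℕ) (T V nn dd : ℤ → ℂ) (ε : ℤ → ℝ) : Prop where
  p13 : 13 ≤ p
  e1 : ∀ t, ε t = 1 ∨ ε t = -1
  T0 : T 0 = 1 / p
  V0 : V 0 = 1
  n0 : nn 0 = (p - 1) / (2 * p)
  d0 : dd 0 = 1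
  nt : ∀ t, t ≠ 0 → nn t = -(((Real.sqrt p * ε t + 1) / 2 : ℝ) : ℂ) * T t
  dt : ∀ t, t ≠ 0 → T t = 0 ∨ dd t = (((Real.sqrt p * ε t - 1) / (p - 1) : ℝ) : ℂ) * V t
  T1 : ∀ t, ‖T t‖ₑ ≤ (p : ℝ≥0∞)⁻¹
  V1 : ∀ t, ‖V t‖ₑ ≤ 1
  n1 : ∀ t, ‖nn t‖ₑ ≤ 1
  d1 : ∀ t, ‖dd t‖ₑ ≤ 1
  T2 : N2 T ≤ (p : ℝ≥0∞)⁻¹
  V2 : N2 V ≤ 60 * p
  n2 : N2 nn ≤ 1
  d2 : N2 dd ≤ 130

/-- **CT**. `(m, t) ↦ (m, m - t Q)` is injective for `Q ≥ 1` and for `t ≠ 0` one of `|m|`, `|m - t Q|` is `≥ Q / 2`. So for `Q ≥ 1`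
`ct a b Q ≤ (∑_(|m| ≥ Q/2) a m) (∑ b) + (∑ a) (∑_(|m| ≥ Q/2) b m)` (for the second term reindex `m ↦ m + t Q`), and the tails of
convergent sums tend to `0` (`ENNReal.tendsto_tsum_compl_atTop_zero` or real numbers). -/
def CT_stmt : Prop := ∀ a b : ℤ → ℝ≥0∞, ∑' n, a n ≠ ⊤ → ∑' n, b n ≠ ⊤ → Tendsto (ct a b) atTop (𝓝 0)

/-- **LOW**. `cv g b Q m - g 0 * b m = ∑_(t ≠ 0) g t b (m - t Q)` (the sum converges absolutely: `‖g t‖ ≤ c` and, `Q ≥ 1`, `b` summable), so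
the left side is at most `∑_m ∑_(t ≠ 0) a m c ‖b (m - t Q)‖`. -/
def LOW_stmt : Prop := ∀ (a : ℤ → ℝ≥0∞) (g b : ℤ → ℂ) (c : ℝ≥0∞) (Q : ℕ), 1 ≤ Q → c ≠ ⊤ → N1 b ≠ ⊤ → (∀ t, ‖g t‖ₑ ≤ c) →
  ∑' m, a m * ‖cv g b Q m - g 0 * b m‖ₑ ≤ c * ct a (fun m => ‖b m‖ₑ) Q

/-- **OD** (off diagonal terms). For fixed `t ≠ t'` put `m = m' - t Q`: the term is `x t y t' ∑_m a m b (m - (t' - t) Q)`; with
`s = t' - t ≠ 0` the sum over `t` of `x t y (t + s) ≤ x t ^ 2 + y (t + s) ^ 2` is at most `X + Y`. -/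
def OD_stmt : Prop := ∀ (x y a b : ℤ → ℝ≥0∞) (Q : ℕ),
  ∑' (m : ℤ) (t : ℤ) (t' : ℤ), (if t' = t then 0 else x t * a (m - t * Q) * (y t' * b (m - t' * Q))) ≤
    ((∑' t, x t ^ 2) + ∑' t, y t ^ 2) * ct a b Q

/-- **DGN** (the diagonal; this is the heart of the cancellation). Let
`X t m = nn t * Fs m + (√p/2) (-1)^t T t * F m`, `Y t m = dd t * Gs m + (√p/(p-1)) (-1)^t V t * G m`, `t ≠ 0`. If `T t = 0` then
`nn t = 0` and `X = 0`. Otherwise, with `σ = ε t (-1)^t = ± 1`, `X = (T t/2) (-1)^t √p (F m - σ Fs m - (-1)^t p^(-1/2) Fs m)`,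
`Y = (V t/(p-1)) (-1)^t √p (G m + σ Gs m - (-1)^t p^(-1/2) Gs m)`. So `‖X‖ ‖Y‖ ≤ (p/(2(p-1))) ‖T t‖ ‖V t‖ (‖F m - σ Fs m‖ + p^(-1/2) ‖Fs m‖)
(‖G m + σ Gs m‖ + p^(-1/2) ‖Gs m‖)`, `∑_t ‖T t‖ ‖V t‖ ≤ ∑ (p ‖T t‖² + ‖V t‖²/p)/2 ≤ 61/2`, and the sum over `m` of the last two factors is at
most `PD + p^(-1/2) K` (`‖F - σ Fs‖ ≤ ‖F‖ + ‖Fs‖ ≤ N1 F + N1 Fs` and so on), `K = 3 (N1 F + N1 Fs) (N1 G + N1 Gs)`. (`13/24 * 61/2 < 20`.) -/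
def DGN_stmt : Prop := ∀ (F Fs G Gs : ℤ → ℂ) (p : ℕ) (T V nn dd : ℤ → ℂ) (ε : ℤ → ℝ), QS p T V nn dd ε →
  ∑' (t : ℤ) (m : ℤ), (if t = 0 then 0 else
    ‖nn t * Fs m + ((Real.sqrt p / 2 : ℝ) : ℂ) * (sg T t * F m)‖ₑ *
      ‖dd t * Gs m + ((Real.sqrt p / (p - 1) : ℝ) : ℂ) * (sg V t * G m)‖ₑ) ≤
    20 * PD F Fs G Gs + 60 * ENNReal.ofReal (Real.sqrt p)⁻¹ * ((N1 F + N1 Fs) * (N1 G + N1 Gs))

/-- **HH** (from OD, DGN). `H m = ∑_(t ≠ 0) X t (m - t Q)`, `J m = ∑_(t ≠ 0) Y t (m - t Q)` with `X`, `Y` as in DGN (`cv` minus the term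
`t = 0`, all sums absolutely convergent). `‖H m‖ ‖J m‖ ≤ ∑_(t, t' ≠ 0) ‖X t (m - t Q)‖ ‖Y t' (m - t' Q)‖`: the terms `t = t'` give the sum in
DGN (shift `m`). For `t ≠ t'` use `‖X t m‖ ≤ x t a m`, `x t = ‖nn t‖ + √p ‖T t‖`, `a m = ‖F m‖ + ‖Fs m‖`, `∑ x t² ≤ 2 + 2 = 4`, and
`‖Y t m‖ ≤ y t b m`, `y t = ‖dd t‖ + (√p/(p-1)) ‖V t‖`, `∑ y t² ≤ 260 + 2 * 60 p²/(p-1)² ≤ 260 + 141`; OD. -/
def HH_stmt : Prop := ∀ (F Fs G Gs : ℤ → ℂ), N1 F ≠ ⊤ → N1 Fs ≠ ⊤ → N1 G ≠ ⊤ → N1 Gs ≠ ⊤ →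
  ∀ (p : ℕ) (T V nn dd : ℤ → ℂ) (ε : ℤ → ℝ), QS p T V nn dd ε → ∀ Q : ℕ, 1 ≤ Q →
  ∑' m, ‖(cv nn Fs Q m - nn 0 * Fs m) + ((Real.sqrt p / 2 : ℝ) : ℂ) * (cv (sg T) F Q m - T 0 * F m)‖ₑ *
      ‖(cv dd Gs Q m - dd 0 * Gs m) + ((Real.sqrt p / (p - 1) : ℝ) : ℂ) * (cv (sg V) G Q m - V 0 * G m)‖ₑ ≤
    20 * PD F Fs G Gs + 60 * ENNReal.ofReal (Real.sqrt p)⁻¹ * ((N1 F + N1 Fs) * (N1 G + N1 Gs)) +
      500 * ct (fun m => ‖F m‖ₑ + ‖Fs m‖ₑ) (fun m => ‖G m‖ₑ + ‖Gs m‖ₑ) Q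

/-- **PDN** (the parity defect of the next environments; from OD). `cv T F Q m - cv (sg T) F Q m = ∑_t (1 - (-1)^t) T t F (m - t Q)` has only odd
`t`, `cv V G Q m + cv (sg V) G Q m` only even `t`; so each of the two sums is at most `4 ∑_m ∑_(t ≠ t') ‖T t‖ ‖F (m - t Q)‖ ‖V t'‖ ‖G (m - t' Q)‖`; OD with
`x t = √p ‖T t‖`, `y t = ‖V t‖/√p`, `∑ x² + ∑ y² ≤ 1 + 60`. -/
def PDN_stmt : Prop := ∀ (F G : ℤ → ℂ), N1 F ≠ ⊤ → N1 G ≠ ⊤ →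
  ∀ (p : ℕ) (T V nn dd : ℤ → ℂ) (ε : ℤ → ℝ), QS p T V nn dd ε → ∀ Q : ℕ, 1 ≤ Q →
  PD (cv T F Q) (cv (sg T) F Q) (cv V G Q) (cv (sg V) G Q) ≤
    500 * ct (fun m => ‖F m‖ₑ) (fun m => ‖G m‖ₑ) Q

/-- majorants -/
noncomputable def ma (D F Fs : ℤ → ℂ) (α : ℝ) (m : ℤ) : ℝ≥0∞ := ‖D m‖ₑ + ENNReal.ofReal α * (‖F m‖ₑ + 2 * ‖Fs m‖ₑ)

/-- the products of the next stage minus the products of the stage -/
noncomputable def dif (D E F Fs G Gs : ℤ → ℂ) (α β : ℝ) (Q p : ℕ) (T V nn dd : ℤ → ℂ) (m : ℤ) : ℂ :=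
  (D m + ((α : ℝ) : ℂ) * cv nn Fs Q m + ((α * Real.sqrt p / 2 : ℝ) : ℂ) * cv (sg T) F Q m) *
        (starRingEnd ℂ) (E m + ((β : ℝ) : ℂ) * cv dd Gs Q m + ((β * Real.sqrt p / (p - 1) : ℝ) : ℂ) * cv (sg V) G Q m) -
      (D m + ((α / 2 : ℝ) : ℂ) * Fs m) * (starRingEnd ℂ) (E m + ((β : ℝ) : ℂ) * Gs m)

/-- **STB** (from LOW, HH; one step). `A = D + (α/2) Fs`, `B = E + β Gs`, `A' = D + α cv nn Fs Q + (α √p/2) cv (sg T) F Q`,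
`B' = E + β cv dd Gs Q + (β √p/(p-1)) cv (sg V) G Q`. Proof: `A' = A + a₁ + α H`, `B' = B + b₁ + β J` with `H`, `J` as in HH,
`a₁ = α (nn 0 - 1/2) Fs + (α √p/2) T 0 F = -(α/(2p)) Fs + (α/(2√p)) F`, `b₁ = (β √p/(p-1)) G` (`V 0 = dd 0 = 1`). So
`A' conj B' - A conj B = a₁ conj (B + b₁) + A conj b₁ + (A + a₁) conj (β J) + α H conj (B + b₁) + α β H conj J`.
`‖A‖, ‖A + a₁‖ ≤ ma D F Fs α`, `‖B + b₁‖ ≤ ma E G Gs β`, `‖a₁‖ ≤ p^(-1/2) ma D F Fs α`, `‖b₁‖ ≤ 2 p^(-1/2) ma E G Gs β` (`p ≥ 13`, `√p/(p-1) ≤ 2/√p`): the first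
two terms are at most `3 p^(-1/2) ma ma`. The third and the fourth: LOW with `c = 1` (`‖dd t‖ ≤ 1`, `‖nn t‖ ≤ 1`, `(√p/(p-1)) ‖V t‖ ≤ 1`, `(√p/2) ‖T t‖ ≤ 1`).
The last one: HH. -/
def STB_stmt : Prop := ∀ (D E F Fs G Gs : ℤ → ℂ) (α β : ℝ), 0 < α → 0 < β →
  N1 D ≠ ⊤ → N1 E ≠ ⊤ → N1 F ≠ ⊤ → N1 Fs ≠ ⊤ → N1 G ≠ ⊤ → N1 Gs ≠ ⊤ →
  ∀ (p : ℕ) (T V nn dd : ℤ → ℂ) (ε : ℤ → ℝ), QS p T V nn dd ε → ∀ Q : ℕ, 1 ≤ Q →
  N1 (dif D E F Fs G Gs α β Q p T V nn dd) ≤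
    ENNReal.ofReal (20 * (α * β)) * PD F Fs G Gs +
    ENNReal.ofReal (Real.sqrt p)⁻¹ * (3 * ((∑' m, ma D F Fs α m) * (∑' m, ma E G Gs β m)) +
      60 * (ENNReal.ofReal (α * β) * ((N1 F + N1 Fs) * (N1 G + N1 Gs)))) +
    (ENNReal.ofReal β * (ct (ma D F Fs α) (fun m => ‖Gs m‖ₑ) Q + ct (ma D F Fs α) (fun m => ‖G m‖ₑ) Q) +
      ENNReal.ofReal α * (ct (ma E G Gs β) (fun m => ‖Fs m‖ₑ) Q + ct (ma E G Gs β) (fun m => ‖F m‖ₑ) Q) +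
      ENNReal.ofReal (α * β) * (500 * ct (fun m => ‖F m‖ₑ + ‖Fs m‖ₑ) (fun m => ‖G m‖ₑ + ‖Gs m‖ₑ) Q))

/-- **STQ** (from STB, CT). Given `η` choose `Q₀ ≥ 1` by CT (the last three terms tend to `0` as `Q → ∞`, they do not depend on `p`), then `p₀`
(the second term is a constant, finite, times `p^(-1/2)`). -/
def STQ_stmt : Prop := ∀ (D E F Fs G Gs : ℤ → ℂ) (α β : ℝ), 0 < α → 0 < β →
  N1 D ≠ ⊤ → N1 E ≠ ⊤ → N1 F ≠ ⊤ → N1 Fs ≠ ⊤ → N1 G ≠ ⊤ → N1 Gs ≠ ⊤ → ∀ η : ℝ, 0 < η →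
  ∃ Q₀ : ℕ, ∀ Q : ℕ, Q₀ ≤ Q → ∃ p₀ : ℕ, ∀ p : ℕ, p₀ ≤ p → ∀ (T V nn dd : ℤ → ℂ) (ε : ℤ → ℝ), QS p T V nn dd ε →
  N1 (dif D E F Fs G Gs α β Q p T V nn dd) ≤ ENNReal.ofReal (20 * (α * β)) * PD F Fs G Gs + ENNReal.ofReal η

/-- **LIM** (limits in `ℓ¹`). The sequence is Cauchy in `ℓ¹`: `N1 (P - P 0) ≤ ∑ N1 (P (j+1) - P j) ≤ 1/4` (Fatou or finite sums:
`‖P∞ n - P 0 n‖ₑ ≤ ∑_j ‖P (j+1) n - P j n‖ₑ`, then `ENNReal.tsum_comm`). So `P∞` is summable and its sum has distance `≤ 1/4` from `1/2`. -/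
def LIM_stmt : Prop := ∀ (P : ℕ → ℤ → ℂ) (L : ℤ → ℂ), N1 (P 0) ≠ ⊤ → ∑' n, P 0 n = 1 / 2 →
  ∑' j, N1 (fun n => P (j + 1) n - P j n) ≤ 1 / 4 → (∀ n, Tendsto (fun j => P j n) atTop (𝓝 (L n))) →
  Summable (fun n => ‖L n‖) ∧ ∑' n, L n ≠ 0

/-! ### Functions on the circle -/

/-- Fourier coefficients of a real function -/
noncomputable def fc (g : TT → ℝ) (n : ℤ) : ℂ := fourierCoeff (fun x => (g x : ℂ)) n

/-- the integral (normalised Haar measure) -/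
noncomputable def ms (g : TT → ℝ) : ℝ := ∫ x, g x ∂AddCircle.haarAddCircle

/-- nonnegative continuous functions with absolutely convergent Fourier series -/
structure Nice (g : TT → ℝ) : Prop where
  cont : Continuous g
  nonneg : ∀ x, 0 ≤ g x
  summ : Summable fun n => ‖fc g n‖

/-- **SMO** (smooth periodic functions). `g` is the lift of `h` (`Function.Periodic.lift`), continuous. Integrating by parts twice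
(`fourierCoeffOn_of_hasDerivAt`, `fourierCoeff_eq_intervalIntegral`): `|g^(n)| ≤ C / n²`. -/
def SMO_stmt : Prop := ∀ h : ℝ → ℝ, ContDiff ℝ 2 h → Function.Periodic h (2 * Real.pi) → (∀ x, 0 ≤ h x) →
  ∃ g : TT → ℝ, Nice g ∧ ∀ x : ℝ, g (x : TT) = h x

/-- **ADD**. Sums and nonnegative multiples of nice functions. -/
def ADD_stmt : Prop := ∀ (g h : TT → ℝ), Nice g → Nice h → ∀ c : ℝ, 0 ≤ c →
  Nice (fun x => g x + c * h x) ∧ (∀ n, fc (fun x => g x + c * h x) n = fc g n + (c : ℂ) * fc h n) ∧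
  Nice (fun x => c * h x) ∧ (∀ n, fc (fun x => c * h x) n = (c : ℂ) * fc h n) ∧ ms (fun x => c * h x) = c * ms h ∧
  Nice (fun _ => 0) ∧ ∀ n, fc (fun _ => 0) n = 0

/-- **TRL** (translations). Substitution in the integral (the Haar measure is invariant). -/
def TRL_stmt : Prop := ∀ (g : TT → ℝ), Nice g → ∀ c : TT, Nice (fun x => g (x - c)) ∧
  (∀ n, fc (fun x => g (x - c)) n = fourier (-n) c * fc g n) ∧
  Nice (fun x => g (x + ((Real.pi : ℝ) : TT))) ∧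
  ∀ n, fc (fun x => g (x + ((Real.pi : ℝ) : TT))) n = sg (fc g) n

/-- **PRO** (products `h(x) g(Q x)`). `g (Q x) = ∑_t g^(t) fourier t (Q x) = ∑_t g^(t) fourier (t Q) x`
(`has_pointwise_sum_fourier_series_of_summable` for `g`; uniformly absolutely convergent), multiply by `h(x) fourier (-m) x` and integrate term by term
(`integral_tsum_of_summable_integral_norm` or `hasSum_integral_of_summable_integral_norm`). Summability: `∑_m ∑_t ‖g^(t)‖ ‖h^(m - t Q)‖ = N1 N1`. -/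
def PRO_stmt : Prop := ∀ (g h : TT → ℝ), Nice g → Nice h → ∀ Q : ℕ, Nice (fun x => h x * g (Q • x)) ∧
  ∀ m, fc (fun x => h x * g (Q • x)) m = cv (fc g) (fc h) Q m

/-- **PAR** (Parseval). Insert the Fourier series of `g` in `∫ g h`, `conj (h^(n)) = ∫ h fourier n`. -/
def PAR_stmt : Prop := ∀ (g h : TT → ℝ), Nice g → Nice h →
  Summable (fun n => fc g n * (starRingEnd ℂ) (fc h n)) ∧
  ∑' n, fc g n * (starRingEnd ℂ) (fc h n) = ((ms (fun x => g x * h x) : ℝ) : ℂ)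

/-- **PSU** (`has_pointwise_sum_fourier_series_of_summable`, a `HasSum` over `ℤ`, composed with `Finset.Icc (-N) N → atTop`). -/
def PSU_stmt : Prop := ∀ (g : TT → ℝ), Nice g → ∀ x : TT,
  Tendsto (fun N : ℕ => ∑ n ∈ Finset.Icc (-(N : ℤ)) (N : ℤ), fc g n * fourier n x) atTop (𝓝 ((g x : ℝ) : ℂ)) ∧
  ∀ N : ℕ, ‖∑ n ∈ Finset.Icc (-(N : ℤ)) (N : ℤ), fc g n * fourier n x‖ ≤ ∑' n, ‖fc g n‖

/-- **BES** (from PAR, PRO; elementary estimates). `‖g^(n)‖ ≤ ∫ g`; `∑ ‖g^(n)‖² = ∫ g² ≤ M ∫ g` (PAR). The last two bounds: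
`ms (h(x) g(Q x)) = fc (..) 0 = cv (fc g) (fc h) Q 0 = ∑_t g^(t) h^(-t Q)` (PRO), `‖g^(t)‖ ≤ ms g`, `t ↦ - t Q` is injective. -/
def BES_stmt : Prop := ∀ (g : TT → ℝ), Nice g → fc g 0 = ((ms g : ℝ) : ℂ) ∧ 0 ≤ ms g ∧ (∀ n, ‖fc g n‖ ≤ ms g) ∧
  N1 (fc g) ≠ ⊤ ∧ (∀ M : ℝ, 0 ≤ M → (∀ x, g x ≤ M) → N2 (fc g) ≤ ENNReal.ofReal (M * ms g)) ∧
  (∀ h : TT → ℝ, Nice h → (∀ x, g x ≤ h x) → ms g ≤ ms h) ∧
  ∀ h : TT → ℝ, Nice h → ∀ Q : ℕ, 1 ≤ Q →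
    ms (fun x => h x * g (Q • x)) ≤ ms g * (N1 (fc h)).toReal ∧
    ms (fun x => h x * g (Q • x)) ≤ ms g * (ms h + (ct (fun m => if m = 0 then 1 else 0) (fun m => ‖fc h m‖ₑ) Q).toReal)

/-- the point `2πk/p` -/
noncomputable def pt (p k : ℕ) : TT := ((2 * Real.pi * k / p : ℝ) : TT)

/-- the bump of half width `c` -/
noncomputable def bt (p : ℕ) (c x : ℝ) : ℝ := expNegInvGlue ((p : ℝ) ^ 2 * (Real.cos x - Real.cos c))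

/-- **BM1**. `expNegInvGlue` is smooth, `0` on the negative axis, positive on the positive axis, `≤ 1`. So `bt p c x ≠ 0` iff `cos c < cos x`; with `m` such that
`|x - 2πm| ≤ π`, `cos x = cos |x - 2πm|` and `cos` is strictly decreasing on `[0, π]`. -/
def BM1_stmt : Prop := ∀ (p : ℕ), 0 < p → ∀ c : ℝ, 0 < c → c < Real.pi →
  ContDiff ℝ 2 (bt p c) ∧ Function.Periodic (bt p c) (2 * Real.pi) ∧ (∀ x, 0 ≤ bt p c x ∧ bt p c x ≤ 1) ∧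
  ∀ x, bt p c x ≠ 0 ↔ ∃ m : ℤ, |x - 2 * Real.pi * m| < c

/-- **BM2** (the integral of the narrow bump). For `|x| ≤ π/4p` `cos x - cos (π/2p) ≥ cos (π/4p) - cos (π/2p) = 2 sin (3π/8p) sin (π/8p) ≥ 3/(8p²)`
(`sin y ≥ 2y/π` on `[0, π/2]`: `Real.mul_le_sin`), so `bt ≥ e^(-8/3) ≥ 1/15` there, and the normalised measure of this interval is `1/(4p)`.
(Haar measure: `AddCircle.integral_preimage`, `fourierCoeff_eq_intervalIntegral` with `n = 0`, or `AddCircle.intervalIntegral_preimage`.) -/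
def BM2_stmt : Prop := ∀ (p : ℕ), 13 ≤ p → ∀ g : TT → ℝ, Continuous g → (∀ x : ℝ, g (x : TT) = bt p (Real.pi / (2 * p)) x) →
  1 / (60 * p) ≤ ms g

/-- **BM3** (from BM1; a partition of unity). `t = bt p (3π/2p)`, `s x = ∑_(k<p) t (x - 2πk/p) > 0` (some `x - 2πk/p - 2πm` is in `[-π/p, π/p]`), smooth, of period `2π/p`
(`s (x - 2π/p)` is the sum over `1 ≤ k ≤ p`, and the term `k = p` is the term `k = 0`). `h = t / s`. If `|x - 2πm| < π/2p` then all other terms of `s` vanish: `|x - 2πk/p - 2πm'| < 3π/2p`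
would give `|2πk/p - 2πm''| < 2π/p`, `k = 0`. -/
def BM3_stmt : Prop := ∀ p : ℕ, 13 ≤ p → ∃ h : ℝ → ℝ, ContDiff ℝ 2 h ∧ Function.Periodic h (2 * Real.pi) ∧ (∀ x, 0 ≤ h x) ∧
  (∀ x, ∑ k ∈ Finset.range p, h (x - 2 * Real.pi * k / p) = 1) ∧
  (∀ x, h x ≠ 0 → ∃ m : ℤ, |x - 2 * Real.pi * m| < 3 * Real.pi / (2 * p)) ∧
  ∀ x, (∃ m : ℤ, |x - 2 * Real.pi * m| < Real.pi / (2 * p)) → h x = 1

/-- the bumps `T`, `V` -/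
structure Bump (p : ℕ) (T V : TT → ℝ) : Prop where
  niT : Nice T
  niV : Nice V
  pa : ∀ x, ∑ k ∈ Finset.range p, T (x - pt p k) = 1
  V6 : ∀ x, V x ≤ 60 * p
  m1 : ms V = 1
  sT : ∀ x, T x ≠ 0 → ‖fourier 1 x - 1‖ ≤ 1 / 2
  TV : ∀ x, V x ≠ 0 → T x = 1
  di : ∀ x, ∀ k < p, ∀ k' < p, k ≠ k' → T (x - pt p k) * V (x - pt p k') = 0

/-- **BMP** (from SMO, ADD, BM1, BM2, BM3; the bumps). `T` = the lift of `h` (BM3, SMO), `V = v / ms v`, `v` = the lift of `bt p (π/2p)` (BM1, SMO). BM2: `V ≤ 60 p`.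
`‖e^(ix) - 1‖ ≤ |x - 2πm| ≤ 3π/26 ≤ 1/2` where `T x ≠ 0`. `di`: `T (x - 2πk/p) V (x - 2πk'/p) ≠ 0` gives `|2π(k - k')/p - 2πm| < 2π/p`, so `p` divides `k - k'`. -/
def BMP_stmt : Prop := ∀ p : ℕ, 13 ≤ p → ∃ T V : TT → ℝ, Bump p T V

/-- residues (`b = 1`) and nonresidues (`b = -1`) modulo `p` -/
noncomputable def RS (p : ℕ) [Fact p.Prime] (b : ℤ) : Finset ℕ :=
  (Finset.range p).filter fun k => quadraticChar (ZMod p) (k : ZMod p) = b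

/-- **GAU** (Gauss sums). `g = ∑_k χ(k) e(-k/p)` satisfies `g² = χ(-1) p = p` (`gaussSum_sq`, `p = 1` modulo `4`), so `g = ± √p`, and
`∑_k χ(k) e(-tk/p) = χ(t) g` for `t` prime to `p`; `∑_k e(-tk/p) = 0`. `ε t = χ(t) g/√p` (and `1` if `p ∣ t`). `RS p 1` and `RS p (-1)` have
`(p - 1)/2` elements. -/
def GAU_stmt : Prop := ∀ (p : ℕ) [Fact p.Prime], p % 4 = 1 → ∃ ε : ℤ → ℝ, (∀ t, ε t = 1 ∨ ε t = -1) ∧
  (∀ t : ℤ, ¬ (p : ℤ) ∣ t →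
    (∑ k ∈ RS p 1, (fourier (-t) (pt p k) : ℂ)) = (((Real.sqrt p * ε t - 1) / 2 : ℝ) : ℂ) ∧
    (∑ k ∈ RS p (-1), (fourier (-t) (pt p k) : ℂ)) = ((-((Real.sqrt p * ε t + 1) / 2) : ℝ) : ℂ)) ∧
  (∀ t : ℤ, (p : ℤ) ∣ t → ∀ k : ℕ, (fourier (-t) (pt p k) : ℂ) = 1) ∧
  (∀ t : ℤ, ¬ (p : ℤ) ∣ t → (∑ k ∈ Finset.range p, (fourier (-t) (pt p k) : ℂ)) = 0) ∧
  2 * (RS p 1).card = p - 1 ∧ 2 * (RS p (-1)).card = p - 1

/-- the functions `T`, `V`, `nn`, `dd` -/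
structure Quad (p : ℕ) (T V nn dd : TT → ℝ) (ε : ℤ → ℝ) : Prop where
  niT : Nice T
  niV : Nice V
  nin : Nice nn
  nid : Nice dd
  qs : QS p (fc T) (fc V) (fc nn) (fc dd) ε
  T1 : ∀ x, T x ≤ 1
  n1 : ∀ x, nn x ≤ 1
  sT : ∀ x, T x ≠ 0 → ‖fourier 1 x - 1‖ ≤ 1 / 2
  sV : ∀ x, V x ≠ 0 → ‖fourier 1 x - 1‖ ≤ 1 / 2
  dis : ∀ x, nn x * dd x = 0

/-- **QU1** (from ADD, TRL; finite sums of translates, induction on `S`). -/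
def QU1_stmt : Prop := ∀ (g : TT → ℝ), Nice g → ∀ (p : ℕ) (S : Finset ℕ) (c : ℝ), 0 ≤ c →
  Nice (fun x => c * ∑ k ∈ S, g (x - pt p k)) ∧
  ∀ n, fc (fun x => c * ∑ k ∈ S, g (x - pt p k)) n = (c : ℂ) * ((∑ k ∈ S, (fourier (-n) (pt p k) : ℂ)) * fc g n)

/-- the function `nn` -/
noncomputable def qn (p : ℕ) [Fact p.Prime] (T : TT → ℝ) (x : TT) : ℝ := 1 * ∑ k ∈ RS p (-1), T (x - pt p k)

/-- the function `dd` -/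
noncomputable def qd (p : ℕ) [Fact p.Prime] (V : TT → ℝ) (x : TT) : ℝ := 2 / ((p : ℝ) - 1) * ∑ k ∈ RS p 1, V (x - pt p k)

/-- **QU2** (pointwise bounds). `T ≤ 1`, `qn ≤ 1` by the partition of unity `pa` (all terms are nonnegative). For each `x` at most one `k < p` has
`V (x - 2πk/p) ≠ 0`, since then `T (x - 2πk/p) = 1`, so `qd ≤ (2/(p-1)) 60 p ≤ 130`. `dis`: `di` (`RS p 1` and `RS p (-1)` are disjoint). -/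
def QU2_stmt : Prop := ∀ (p : ℕ) [Fact p.Prime], 13 ≤ p → ∀ T V : TT → ℝ, Bump p T V →
  (∀ x, T x ≤ 1) ∧ (∀ x, qn p T x ≤ 1) ∧ (∀ x, qd p V x ≤ 130) ∧ (∀ x, qn p T x * qd p V x = 0) ∧
  ∀ x, V x ≠ 0 → ‖fourier 1 x - 1‖ ≤ 1 / 2

/-- **QU3** (from QU1, GAU, BES; the coefficients). The sum of all the translates of `T` is `1`, its coefficients are `p T^(0) = 1` and, for `p ∣ t ≠ 0`, `p T^(t) = 0`. -/
def QU3_stmt : Prop := ∀ (p : ℕ) [Fact p.Prime], p % 4 = 1 → 13 ≤ p → ∀ T V : TT → ℝ, Bump p T V → ∃ ε : ℤ → ℝ, (∀ t, ε t = 1 ∨ ε t = -1) ∧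
  fc T 0 = 1 / p ∧ fc V 0 = 1 ∧ fc (qn p T) 0 = (p - 1) / (2 * p) ∧ fc (qd p V) 0 = 1 ∧
  (∀ t, t ≠ 0 → fc (qn p T) t = -(((Real.sqrt p * ε t + 1) / 2 : ℝ) : ℂ) * fc T t) ∧
  ∀ t, t ≠ 0 → fc T t = 0 ∨ fc (qd p V) t = (((Real.sqrt p * ε t - 1) / (p - 1) : ℝ) : ℂ) * fc V t

/-- **QUA** (from BMP, QU1, QU2, QU3, BES; assembly). BES: `‖g^(t)‖ ≤ ms g = g^(0)`, `N2 (fc g) ≤ M ms g` (`M = 1, 60 p, 1, 130`). -/
def QUA_stmt : Prop := ∀ p : ℕ, p.Prime → p % 4 = 1 → 13 ≤ p → ∃ (T V nn dd : TT → ℝ) (ε : ℤ → ℝ),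
  Quad p T V nn dd ε

/-- `Q x` is near `0` -/
def ZZ (Q : ℕ) (x : TT) : Prop := ‖(fourier (Q : ℤ) x : ℂ) - 1‖ ≤ 1 / 2

/-- `Q x` is near `π` -/
def HF (Q : ℕ) (x : TT) : Prop := ‖(fourier (Q : ℤ) x : ℂ) + 1‖ ≤ 1 / 2

/-- a stage: environments `F, Fs, G, Gs`, sums `D, E` of the earlier pieces, weights -/
structure Stg where
  F : TT → ℝ
  Fs : TT → ℝ
  G : TT → ℝ
  Gs : TT → ℝ
  D : TT → ℝ
  E : TT → ℝ
  al : ℝ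
  be : ℝ

/-- regular stages -/
structure Stg.Ok (s : Stg) : Prop where
  nF : Nice s.F
  nFs : Nice s.Fs
  nG : Nice s.G
  nGs : Nice s.Gs
  nD : Nice s.D
  nE : Nice s.E
  al : 0 < s.al
  be : 0 < s.be

/-- the product sequence of a stage -/
noncomputable def Stg.P (s : Stg) (n : ℤ) : ℂ :=
  (fc s.D n + ((s.al / 2 : ℝ) : ℂ) * fc s.Fs n) * (starRingEnd ℂ) (fc s.E n + ((s.be : ℝ) : ℂ) * fc s.Gs n)

/-- the defect of a stage -/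
noncomputable def Stg.pd (s : Stg) : ℝ≥0∞ :=
  ENNReal.ofReal (20 * (s.al * s.be)) * PD (fc s.F) (fc s.Fs) (fc s.G) (fc s.Gs)

/-- the piece `f` -/
noncomputable def nf (s : Stg) (Q : ℕ) (nn : TT → ℝ) (x : TT) : ℝ := s.al * (s.Fs x * nn (Q • x))

/-- the piece `u` -/
noncomputable def nu (s : Stg) (Q : ℕ) (dd : TT → ℝ) (x : TT) : ℝ := s.be * (s.Gs x * dd (Q • x))

/-- the next stage -/
noncomputable def nx (s : Stg) (Q p : ℕ) (T V nn dd : TT → ℝ) : Stg where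
  F := fun x => s.F x * T (Q • x)
  Fs := fun x => s.F x * T (Q • x + ((Real.pi : ℝ) : TT))
  G := fun x => s.G x * V (Q • x)
  Gs := fun x => s.G x * V (Q • x + ((Real.pi : ℝ) : TT))
  D := fun x => s.D x + nf s Q nn x
  E := fun x => s.E x + nu s Q dd x
  al := s.al * Real.sqrt p
  be := s.be * Real.sqrt p / (p - 1)

/-- **NXA** (from PRO, TRL, ADD; the coefficients of the next stage). (`g (Q x + π)` is `g₁ (Q x)` with `g₁ y = g (y + π)`.) -/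
def NXA_stmt : Prop := ∀ (s : Stg), s.Ok → ∀ (p : ℕ) (T V nn dd : TT → ℝ) (ε : ℤ → ℝ), Quad p T V nn dd ε → ∀ Q : ℕ, 1 ≤ Q →
  (nx s Q p T V nn dd).Ok ∧ Nice (nf s Q nn) ∧ Nice (nu s Q dd) ∧
  (∀ n, fc (nf s Q nn) n = ((s.al : ℝ) : ℂ) * cv (fc nn) (fc s.Fs) Q n) ∧
  (∀ n, fc (nu s Q dd) n = ((s.be : ℝ) : ℂ) * cv (fc dd) (fc s.Gs) Q n) ∧
  fc (nx s Q p T V nn dd).F = cv (fc T) (fc s.F) Q ∧ fc (nx s Q p T V nn dd).Fs = cv (sg (fc T)) (fc s.F) Q ∧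
  fc (nx s Q p T V nn dd).G = cv (fc V) (fc s.G) Q ∧ fc (nx s Q p T V nn dd).Gs = cv (sg (fc V)) (fc s.G) Q ∧
  (∀ n, fc (nx s Q p T V nn dd).D n = fc s.D n + fc (nf s Q nn) n) ∧
  ∀ n, fc (nx s Q p T V nn dd).E n = fc s.E n + fc (nu s Q dd) n

/-- **NXB** (supports). `fourier 1 (Q • x) = fourier Q x`, `fourier 1 (Q • x + π) = - fourier Q x`. -/
def NXB_stmt : Prop := ∀ (s : Stg) (p : ℕ) (T V nn dd : TT → ℝ) (ε : ℤ → ℝ), Quad p T V nn dd ε → ∀ Q : ℕ,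
  (∀ x, nf s Q nn x * nu s Q dd x = 0) ∧ (∀ x, nf s Q nn x ≠ 0 → s.Fs x ≠ 0) ∧ (∀ x, nu s Q dd x ≠ 0 → s.Gs x ≠ 0) ∧
  (∀ x, (nx s Q p T V nn dd).F x ≠ 0 → s.F x ≠ 0 ∧ ZZ Q x) ∧ (∀ x, (nx s Q p T V nn dd).G x ≠ 0 → s.G x ≠ 0 ∧ ZZ Q x) ∧
  (∀ x, (nx s Q p T V nn dd).Fs x ≠ 0 → s.F x ≠ 0 ∧ HF Q x) ∧ ∀ x, (nx s Q p T V nn dd).Gs x ≠ 0 → s.G x ≠ 0 ∧ HF Q x

/-- **NXM** (from NXA, BES, ADD, TRL; masses). `nn ≤ 1`; `ms dd = 1`, `ms T(. + π) = fc (..) 0 = 1/p`, `ms V(. + π) = 1`; BES. -/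
def NXM_stmt : Prop := ∀ (s : Stg), s.Ok → ∀ (p : ℕ) (T V nn dd : TT → ℝ) (ε : ℤ → ℝ), Quad p T V nn dd ε → ∀ Q : ℕ, 1 ≤ Q →
  ms (nf s Q nn) ≤ s.al * ms s.Fs ∧
  ms (nu s Q dd) ≤ s.be * (ms s.Gs + (ct (fun m => if m = 0 then 1 else 0) (fun m => ‖fc s.Gs m‖ₑ) Q).toReal) ∧
  ms (nx s Q p T V nn dd).Fs ≤ 1 / p * (N1 (fc s.F)).toReal ∧ ms (nx s Q p T V nn dd).Gs ≤ (N1 (fc s.G)).toReal

/-- **NXT** (from STQ, PDN, CT, QUA, NXA, NXB, NXM, BES; the next stage). Choose `Q ≥ 1` large (STQ with `η`; the defect: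
`s'.al s'.be = al be p/(p-1) ≤ 2 al be`, PDN and CT; `be * ct (..)` in NXM), then a prime `p = 1` modulo `4` large
(`Nat.exists_prime_gt_modEq_one`) and QUA. `s' = nx ..`, `f = nf ..`, `u = nu ..`. Masses: `al' ms Fs' ≤ al √p (1/p) N1 F`,
`be' ms Gs' ≤ (2 be/√p) N1 G`: small for `p` large, `Q` being fixed. -/
def NXT_stmt : Prop := ∀ s : Stg, s.Ok → ∀ η : ℝ, 0 < η → ∃ (s' : Stg) (Q : ℕ) (f u : TT → ℝ), s'.Ok ∧ 1 ≤ Q ∧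
  Nice f ∧ Nice u ∧ (∀ n, fc s'.D n = fc s.D n + fc f n) ∧ (∀ n, fc s'.E n = fc s.E n + fc u n) ∧
  (∀ x, f x * u x = 0) ∧ (∀ x, f x ≠ 0 → s.Fs x ≠ 0) ∧ (∀ x, u x ≠ 0 → s.Gs x ≠ 0) ∧
  (∀ x, s'.F x ≠ 0 → s.F x ≠ 0 ∧ ZZ Q x) ∧ (∀ x, s'.G x ≠ 0 → s.G x ≠ 0 ∧ ZZ Q x) ∧
  (∀ x, s'.Fs x ≠ 0 → s.F x ≠ 0 ∧ HF Q x) ∧ (∀ x, s'.Gs x ≠ 0 → s.G x ≠ 0 ∧ HF Q x) ∧
  ms f ≤ s.al * ms s.Fs ∧ ms u ≤ s.be * ms s.Gs + η ∧
  s'.al * ms s'.Fs * Q ≤ η ∧ s'.be * ms s'.Gs ≤ η ∧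
  N1 (fun n => s'.P n - s.P n) ≤ s.pd + ENNReal.ofReal η ∧ s'.pd ≤ ENNReal.ofReal η

/-- **BAS** (from BMP, TRL, ADD, PAR, BES; the first stage). `F = T`, `Fs x = T (x + π)`, `G = V`, `Gs x = V (x + π)` for `p = 13`, `D = E = 0`, `al = be = 1`. The
defect is `0` (`T^(t) (1 - (-1)^t) V^(t) (1 + (-1)^t) = 0`). `P n = (1/2) T^(n) conj (V^(n))`, with sum `(1/2) ∫ T V = (1/2) ∫ V = 1/2` (PAR). -/
def BAS_stmt : Prop := ∃ s : Stg, s.Ok ∧ s.pd = 0 ∧ N1 s.P ≠ ⊤ ∧ ∑' n, s.P n = 1 / 2 ∧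
  (∀ n, fc s.D n = 0) ∧ (∀ n, fc s.E n = 0) ∧
  (∀ x, s.F x ≠ 0 → ZZ 1 x) ∧ (∀ x, s.G x ≠ 0 → ZZ 1 x) ∧ (∀ x, s.Fs x ≠ 0 → HF 1 x) ∧ ∀ x, s.Gs x ≠ 0 → HF 1 x

/-- the result of the construction -/
structure Tower (Q : ℕ → ℕ) (f u R S : ℕ → TT → ℝ) : Prop where
  Qp : ∀ j, 1 ≤ Q j
  nf : ∀ j, Nice (f j)
  nu : ∀ j, Nice (u j)
  nR : ∀ j, Nice (R j)
  nS : ∀ j, Nice (S j)
  sup : ∀ j x, (f j x ≠ 0 ∨ u j x ≠ 0) → (∀ i < j, ZZ (Q i) x) ∧ HF (Q j) x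
  dis : ∀ j x, f j x * u j x = 0
  mf : Summable fun j => (Q j : ℝ) * ms (f j)
  mu : Summable fun j => ms (u j)
  mR : Tendsto (fun j => ms (R j)) atTop (𝓝 0)
  mS : Tendsto (fun j => ms (S j)) atTop (𝓝 0)
  P0 : N1 (fun n => fc (R 0) n * (starRingEnd ℂ) (fc (S 0) n)) ≠ ⊤
  P1 : ∑' n, fc (R 0) n * (starRingEnd ℂ) (fc (S 0) n) = 1 / 2
  dP : ∑' j, N1 (fun n =>
    ((∑ i ∈ Finset.range (j + 1), fc (f i) n) + fc (R (j + 1)) n) *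
      (starRingEnd ℂ) ((∑ i ∈ Finset.range (j + 1), fc (u i) n) + fc (S (j + 1)) n) -
    ((∑ i ∈ Finset.range j, fc (f i) n) + fc (R j) n) *
      (starRingEnd ℂ) ((∑ i ∈ Finset.range j, fc (u i) n) + fc (S j) n)) ≤ 1 / 4

/-- **TOW** (from NXT, BAS, ADD, BES; recursion). Stages `s_0` = BAS, `s_(j+1)`, `Q_(j+1)`, `f_j`, `u_j` from NXT for `s_j` with `η_j = 2^(-j)/32` (recursion on the subtype of
the regular stages, `Nat.rec` and `Classical.choose`), `Q_0 = 1`, `R_j = (al_j/2) Fs_j`, `S_j = be_j Gs_j` (nice: ADD). By induction on `j`: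
`F_j x ≠ 0` or `G_j x ≠ 0` implies `ZZ (Q i) x` for `i ≤ j`, `Fs_j x ≠ 0` or `Gs_j x ≠ 0` implies `ZZ (Q i) x` for `i < j` and `HF (Q j) x`;
`fc D_j n = ∑_(i<j) fc f_i n`. `Q_(j+1) ms f_(j+1) ≤ η_j`, `ms u_(j+1) ≤ η_j + η_(j+1)`, `ms R_(j+1) ≤ η_j`, `ms S_(j+1) ≤ η_j`. `∑_j (pd_j + η_j) ≤ 2 ∑ η_j = 1/8`. -/
def TOW_stmt : Prop := ∃ (Q : ℕ → ℕ) (f u R S : ℕ → TT → ℝ), Tower Q f u R S

/-! ### The end -/

/-- **DIR** (partial sums away from the support). `S_N(f)(x) = ∫ f(z) D(x - z) dz`, `D(y) = ∑_(|n| ≤ N) fourier n y`; `(fourier 1 y - 1) D(y) = fourier (N+1) y -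
fourier (-N) y` has norm `≤ 2` and `‖fourier Q y - 1‖ ≤ Q ‖fourier 1 y - 1‖`, so `‖D(x - z)‖ ≤ 2 Q` where
`1 ≤ ‖fourier Q x - fourier Q z‖ = ‖fourier Q (x - z) - 1‖`. -/
def DIR_stmt : Prop := ∀ (f : TT → ℝ), Nice f → ∀ (x : TT) (Q : ℕ),
  (∀ z, f z ≠ 0 → 1 ≤ ‖(fourier (Q : ℤ) x : ℂ) - fourier (Q : ℤ) z‖) → ∀ N : ℕ,
  ‖∑ n ∈ Finset.Icc (-(N : ℤ)) (N : ℤ), fc f n * fourier n x‖ ≤ 2 * Q * ms f

/-- the closed set of the theorem -/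
def FF (u : ℕ → TT → ℝ) : Set TT := closure {x | ∃ j, u j x ≠ 0}

/-- **SEP** (the points of `F`). `ZZ Q` and `HF Q` are closed. Let `x ∈ F`. If `ZZ (Q i) x` fails for some `i`, the complement of `{ZZ (Q i)}` is an open
neighbourhood of `x` which does not meet `{u_j ≠ 0}` for `j > i`, so `x` is in the closure of the union of `{u_j ≠ 0}`, `j ≤ i`, a finite union:
`x ∈ closure {u_j ≠ 0}` for some `j`; there `ZZ (Q i) x` for `i < j`, `HF (Q j) x`, and `f_j x = 0` (`{f_j = 0}` is closed and contains `{u_j ≠ 0}`). -/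
def SEP_stmt : Prop := ∀ (Q : ℕ → ℕ) (f u R S : ℕ → TT → ℝ), Tower Q f u R S → ∀ x ∈ FF u,
  (∀ i, ZZ (Q i) x) ∨ ∃ j, (∀ i < j, ZZ (Q i) x) ∧ HF (Q j) x ∧ f j x = 0

/-- **SN0** (from DIR, SEP, PSU, BES; the partial sums tend to `0` on `F`). `S_N(x) = ∑_j S_N(f_j)(x)`, where `S_N(f_j)(x) → f_j(x)` (PSU). If `ZZ Q x`, `HF Q z` (or conversely) then `‖fourier Q x - fourier Q z‖ ≥ 1`. Case 1 of SEP: `f_j z ≠ 0` implies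
`HF (Q j) z`, so `‖S_N(f_j)(x)‖ ≤ 2 Q_j ms f_j` (DIR), `f_j x = 0`. Case 2, `x` with `j₀`: for `j > j₀` `ZZ (Q j₀) z`: `‖S_N(f_j)(x)‖ ≤ 2 Q_(j₀) ms f_j`; for `j < j₀`
`HF (Q j) z`, `ZZ (Q j) x`, for `j = j₀` `f_j x = 0`; for the finitely many `j ≤ j₀` use the bound `∑ ‖f_j^(n)‖`. Dominated convergence
(`tendsto_tsum_of_dominated_convergence`). -/
def SN0_stmt : Prop := ∀ (Q : ℕ → ℕ) (f u R S : ℕ → TT → ℝ), Tower Q f u R S → ∀ x ∈ FF u,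
  Tendsto (fun N : ℕ => ∑ n ∈ Finset.Icc (-(N : ℤ)) (N : ℤ), (∑' j, fc (f j) n) * fourier n x) atTop (𝓝 0)

/-- **COE** (from BES; the coefficients). `‖fc (f j) n‖ ≤ ms (f j)`, summable; for every `j` `fc (f j) n → 0` along the cofinite filter
(`Summable.tendsto_cofinite_zero`); dominated convergence. The limits: `ms (R j) → 0`, `ms (S j) → 0`. -/
def COE_stmt : Prop := ∀ (Q : ℕ → ℕ) (f u R S : ℕ → TT → ℝ), Tower Q f u R S →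
  Tendsto (fun n => ∑' j, fc (f j) n) cofinite (𝓝 0) ∧
  (∀ n, Tendsto (fun j => (∑ i ∈ Finset.range j, fc (f i) n) + fc (R j) n) atTop (𝓝 (∑' j, fc (f j) n))) ∧
  ∀ n, Tendsto (fun j => (∑ i ∈ Finset.range j, fc (u i) n) + fc (S j) n) atTop (𝓝 (∑' j, fc (u j) n))

/-- **MEA** (from BES; the measure). `μ` = Haar measure with density `∑_j ENNReal.ofReal (u_j x)` (or `Measure.sum` of the measures with densities `u_j`).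
`μ univ = ∑ ms (u j)`. `u_j = 0` outside `F`. `∫ fourier (-n) dμ = ∑_j ∫ fourier (-n) u_j`. The last claim: `conj (u^(n)) = u^(-n)`. -/
def MEA_stmt : Prop := ∀ (u : ℕ → TT → ℝ), (∀ j, Nice (u j)) → Summable (fun j => ms (u j)) →
  ∃ μ : Measure TT, IsFiniteMeasure μ ∧ μ (FF u)ᶜ = 0 ∧
    (∀ n : ℤ, ∫ t, (fourier (-n) t : ℂ) ∂μ = ∑' j, fc (u j) n) ∧
    ∀ n : ℤ, ∑' j, fc (u j) n = (starRingEnd ℂ) (∑' j, fc (u j) (-n))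

/-- **FIN** (from TOW, SN0, COE, MEA, LIM; assembly, the negation of the problem). `a n = ∑_j fc (f j) n`, `F = FF u`, `L n = a n * conj (μ^(n)) = a n * μ^(-n)`;
LIM for `P j n`; reindex `n ↦ -n`. -/
def FIN_stmt : Prop :=
  ¬ (∀ (a : ℤ → ℂ) (F : Set (AddCircle (2 * Real.pi))) (μ : MeasureTheory.Measure (AddCircle (2 * Real.pi))),
      Filter.Tendsto a Filter.cofinite (nhds 0) →
      IsClosed F →
      (∀ t ∈ F, Filter.Tendsto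
        (fun N : ℕ => ∑ n ∈ Finset.Icc (-(N : ℤ)) (N : ℤ), a n * fourier n t)
        Filter.atTop (nhds 0)) →
      MeasureTheory.IsFiniteMeasure μ →
      μ Fᶜ = 0 →
      Summable (fun n : ℤ => ‖∫ t, fourier (-n) t ∂μ‖ * ‖a (-n)‖) →
      ∑' n : ℤ, (∫ t, fourier (-n) t ∂μ) * a (-n) = 0)

end Pool.Agent.helper84.NM
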